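import Pool.Agent.H7.JB.Stmts
import Pool.Agent.H52.HZ.NS2

/-!
# Board `jb14`, row NS2W: blocks with `s ≥ 2` (MP_fd41b2_co)

The proof of the board `hz` (Pool/Agent/H52/HZ/NS2.lean), whose lemmas are used.
-/

set_option autoImplicit false

open Finset

namespace Pool.JB7

open Pool.Agent.H23.KT Pool.Agent.H46.KW Pool.KQ Pool.GT7 Pool.GU7 Pool.HZ7

/-- Row NS2W. -/
theorem ns2w_thm (_hEST : ESTStmt) (hTTR : TTRStmt) : NS2WStmt := by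
  intro p r hpr K
  have hrp := hpr.rp
  have hp0 : (0 : ℝ) ≤ p := Nat.cast_nonneg p
  have hr0 : (0 : ℝ) ≤ r := Nat.cast_nonneg r
  -- the inequality for fixed data
  have key : ∀ s S2 S3 : ℕ, ∃ a₀ : ℕ, ∀ a ≥ a₀, 2 ≤ s →
      ns2_P p r s S2 S3 a * ((((p + 3) * a + r + a + 1 : ℕ)) : ℝ) ≤
        kx p r a * ((((p + 3) * a + r + a + s : ℕ)) : ℝ) := by
    intro s S2 S3
    obtain ⟨A, hA⟩ : ∃ A : ℝ, A = ((p : ℝ) + 4) * (p + 3) * (p + 2) / 6 := ⟨_, rfl⟩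
    obtain ⟨B, hB⟩ : ∃ B : ℝ, B = (r : ℝ) * (p + 4) * (p + 2) / 2 := ⟨_, rfl⟩
    obtain ⟨M, hM⟩ : ∃ M : ℝ, M = ns2_P p r s S2 S3 0 := ⟨_, rfl⟩
    obtain ⟨L, hL⟩ : ∃ L : ℝ, L = ns2_P p r s S2 S3 1 - M - A - B := ⟨_, rfl⟩
    obtain ⟨C, hC⟩ : ∃ C : ℝ, C = ((p : ℝ) + 3) * (r + 1) / 2 + (p + 2) / 2 + (r + 1) / 2 :=
      ⟨_, rfl⟩
    obtain ⟨a₀, ha₀⟩ := exists_nat_ge ((C + |L| + |M|) * ((p : ℝ) + 4 + r + s + 1))
    refine ⟨a₀ + 1, fun a ha hs => ?_⟩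
    have ha1 : 1 ≤ a := by omega
    have haT := ha₀.trans (show ((a₀ : ℕ) : ℝ) ≤ (a : ℝ) by exact_mod_cast (by omega : a₀ ≤ a))
    have har : (1 : ℝ) ≤ a := by exact_mod_cast ha1
    have hs0 : (2 : ℝ) ≤ s := by exact_mod_cast hs
    have hA1 : 1 ≤ A := by
      rw [hA]
      have h1 : (3 : ℝ) ≤ ((p : ℝ) + 4) := by linarith
      have h2 : (2 : ℝ) ≤ ((p : ℝ) + 3) := by linarith
      have h3 : (1 : ℝ) ≤ ((p : ℝ) + 2) := by linarith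
      have : (3 : ℝ) * 2 * 1 ≤ ((p : ℝ) + 4) * (p + 3) * (p + 2) := by gcongr
      linarith
    have hB0 : 0 ≤ B := by rw [hB]; positivity
    have hC0 : 0 ≤ C := by rw [hC]; positivity
    have hk := ns2_kx hTTR p r a hrp ha1
    have hp := ns2_poly p r s S2 S3 a
    rw [← hA, ← hB, ← hC] at hk
    rw [← hA, ← hB, ← hM, ← hL] at hp
    have h := ns2_fin A B C L M p r s a _ _ hA1 hB0 hC0 hp0 hr0 hs0 har haT hp hk
    have eN1 : ((((p + 3) * a + r + a + 1 : ℕ)) : ℝ) = ((p : ℝ) + 4) * a + r + 1 := by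
      push_cast
      ring
    have eN2 : ((((p + 3) * a + r + a + s : ℕ)) : ℝ) = ((p : ℝ) + 4) * a + r + s := by
      push_cast
      ring
    rw [eN1, eN2]
    exact h
  choose f hf using key
  set I := (Finset.range (K + 1)) ×ˢ (Finset.range ((p + 4) * K ^ 2 + 1)) ×ˢ
    (Finset.range ((p + 4) * K ^ 3 + 1)) with hI
  refine ⟨I.sup (fun x => f x.1 x.2.1 x.2.2), fun a ha s hs2 hsK n σ hn hσ hsum => ?_⟩
  rw [ns2_Psi p r a s n σ hn hsum]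
  have b2 : ∑ j, σ j ^ 2 ≤ (p + 4) * K ^ 2 := by
    calc ∑ j, σ j ^ 2 ≤ ∑ _j : Fin (p + 4), K ^ 2 :=
          Finset.sum_le_sum fun j _ => Nat.pow_le_pow_left (hσ j) 2
      _ = (p + 4) * K ^ 2 := by simp
  have b3 : ∑ j, σ j ^ 3 ≤ (p + 4) * K ^ 3 := by
    calc ∑ j, σ j ^ 3 ≤ ∑ _j : Fin (p + 4), K ^ 3 :=
          Finset.sum_le_sum fun j _ => Nat.pow_le_pow_left (hσ j) 3
      _ = (p + 4) * K ^ 3 := by simp
  have hmem : (s, ∑ j, σ j ^ 2, ∑ j, σ j ^ 3) ∈ I := by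
    rw [hI]
    simp only [Finset.mem_product, Finset.mem_range]
    exact ⟨by omega, by omega, by omega⟩
  have hle : f s (∑ j, σ j ^ 2) (∑ j, σ j ^ 3) ≤ a :=
    (Finset.le_sup (f := fun x => f x.1 x.2.1 x.2.2) hmem).trans ha
  exact hf s _ _ a hle hs2

end Pool.JB7
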